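import Mathlib

/-! Weyl's equidistribution criterion, for finite families of indices. -/

open Filter Topology MeasureTheory Set
open scoped BoundedContinuousFunction ENNReal

namespace Pool.Agent.Lib.Weyl

instance : IsProbabilityMeasure (volume : Measure UnitAddCircle) :=
  ⟨UnitAddCircle.measure_univ⟩

lemma integral_fourier_ne {h : ℤ} (hh : h ≠ 0) :
    ∫ x : UnitAddCircle, fourier h x = 0 :=
  integral_eq_zero_of_add_right_eq_neg (μ := volume)
    (fourier_add_half_inv_index hh (by norm_num : (0 : ℝ) < 1))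

variable {ι : Type*}

/-- averaged discrepancy of a continuous function along the finite families `s N` -/
noncomputable def disc (s : ℕ → Finset ι) (d : ℕ → ℕ) (y : ι → UnitAddCircle)
    (f : C(UnitAddCircle, ℂ)) (N : ℕ) : ℂ :=
  (∑ k ∈ s N, (f (y k) - ∫ x, f x)) / d N

lemma norm_disc_le {s : ℕ → Finset ι} {d : ℕ → ℕ} (hd : ∀ N, (s N).card ≤ d N)
    (y : ι → UnitAddCircle) (f : C(UnitAddCircle, ℂ)) (N : ℕ) : ‖disc s d y f N‖ ≤ 2 * ‖f‖ := by
  unfold disc
  rcases Nat.eq_zero_or_pos (d N) with h0 | hN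
  · simp [h0]
  have hN' : (0 : ℝ) < d N := by exact_mod_cast hN
  rw [norm_div, Complex.norm_natCast, div_le_iff₀ hN']
  have h1 : ∀ k, ‖f (y k) - ∫ x, f x‖ ≤ 2 * ‖f‖ := by
    intro k
    have a := f.norm_coe_le_norm (y k)
    have b : ‖∫ x, f x‖ ≤ ‖f‖ := by
      have := norm_integral_le_of_norm_le_const (μ := (volume : Measure UnitAddCircle))
        (f := fun x => f x) (C := ‖f‖) (Eventually.of_forall fun x => f.norm_coe_le_norm x)
      simpa using this
    have := norm_sub_le (f (y k)) (∫ x, f x)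
    linarith
  calc _ ≤ ∑ k ∈ s N, ‖f (y k) - ∫ x, f x‖ := norm_sum_le _ _
    _ ≤ ∑ _k ∈ s N, 2 * ‖f‖ := Finset.sum_le_sum fun k _ => h1 k
    _ = (s N).card * (2 * ‖f‖) := by simp
    _ ≤ d N * (2 * ‖f‖) := by
        gcongr
        exact_mod_cast hd N
    _ = _ := by ring

lemma cint (f : C(UnitAddCircle, ℂ)) : Integrable (fun x => f x) (volume : Measure UnitAddCircle) :=
  f.continuous.integrable_of_hasCompactSupport (HasCompactSupport.of_compactSpace _)

lemma disc_add (s : ℕ → Finset ι) (d : ℕ → ℕ) (y : ι → UnitAddCircle)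
    (f g : C(UnitAddCircle, ℂ)) (N : ℕ) :
    disc s d y (f + g) N = disc s d y f N + disc s d y g N := by
  unfold disc
  rw [← add_div, ← Finset.sum_add_distrib]
  congr 1
  refine Finset.sum_congr rfl fun k _ => ?_
  have : ∫ x, (f + g) x = (∫ x, f x) + ∫ x, g x := by
    simpa using integral_add (cint f) (cint g)
  rw [this]; simp; ring

lemma disc_smul (s : ℕ → Finset ι) (d : ℕ → ℕ) (y : ι → UnitAddCircle) (c : ℂ)
    (f : C(UnitAddCircle, ℂ)) (N : ℕ) : disc s d y (c • f) N = c * disc s d y f N := by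
  unfold disc
  rw [← mul_div_assoc, Finset.mul_sum]
  congr 1
  refine Finset.sum_congr rfl fun k _ => ?_
  have : ∫ x, (c • f) x = c * ∫ x, f x := by
    simpa using integral_const_mul c (fun x => f x)
  rw [this]; simp; ring

lemma disc_tendsto {s : ℕ → Finset ι} {d : ℕ → ℕ} (hd : ∀ N, (s N).card ≤ d N)
    (y : ι → UnitAddCircle)
    (H : ∀ h : ℤ, h ≠ 0 → Tendsto (fun N : ℕ =>
      (∑ k ∈ s N, fourier h (y k)) / (d N : ℂ)) atTop (𝓝 0))
    (f : C(UnitAddCircle, ℂ)) : Tendsto (disc s d y f) atTop (𝓝 0) := by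
  have hs : ∀ g ∈ Submodule.span ℂ (range (@fourier 1)), Tendsto (disc s d y g) atTop (𝓝 0) := by
    intro g hg
    induction hg using Submodule.span_induction with
    | mem g hg =>
      obtain ⟨h, rfl⟩ := hg
      by_cases hh : h = 0
      · subst hh
        have : disc s d y (fourier 0) = fun _ => 0 := by
          funext N; simp [disc]
        rw [this]; exact tendsto_const_nhds
      · have : disc s d y (fourier h) = fun N : ℕ =>
            (∑ k ∈ s N, fourier h (y k)) / (d N : ℂ) := by
          funext N; simp only [disc, integral_fourier_ne hh, sub_zero]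
        rw [this]; exact H h hh
    | zero =>
      have : disc s d y 0 = fun _ => 0 := by funext N; simp [disc]
      rw [this]; exact tendsto_const_nhds
    | add f g _ _ hf hg =>
      have : disc s d y (f + g) = fun N => disc s d y f N + disc s d y g N := by
        funext N; exact disc_add s d y f g N
      rw [this]; simpa using hf.add hg
    | smul c f _ hf =>
      have : disc s d y (c • f) = fun N => c * disc s d y f N := by
        funext N; exact disc_smul s d y c f N
      rw [this]; simpa using hf.const_mul c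
  rw [Metric.tendsto_atTop]
  intro ε hε
  have hf : f ∈ (Submodule.span ℂ (range (@fourier 1))).topologicalClosure := by
    rw [span_fourier_closure_eq_top]; trivial
  obtain ⟨g, hg, hfg⟩ := Metric.mem_closure_iff.1 hf (ε / 4) (by positivity)
  obtain ⟨N0, hN0⟩ := Metric.tendsto_atTop.1 (hs g hg) (ε / 2) (by positivity)
  refine ⟨N0, fun N hN => ?_⟩
  have e : f = (f - g) + g := by abel
  have h1 := norm_disc_le hd y (f - g) N
  have h2 := hN0 N hN
  rw [dist_zero_right] at h2 ⊢
  rw [dist_eq_norm] at hfg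
  rw [e, disc_add]
  have := norm_add_le (disc s d y (f - g) N) (disc s d y g N)
  linarith

/-- the auxiliary probability measures -/
noncomputable def emp (s : Finset ι) (d : ℕ) (y : ι → UnitAddCircle) : Measure UnitAddCircle :=
  ((d : ℕ) : ℝ≥0∞)⁻¹ • (∑ k ∈ s, Measure.dirac (y k) + ((d - s.card : ℕ) : ℝ≥0∞) • volume)

lemma emp_prob {s : Finset ι} {d : ℕ} (hd : s.card ≤ d) (h0 : 0 < d) (y : ι → UnitAddCircle) :
    IsProbabilityMeasure (emp s d y) := by
  constructor
  simp only [emp, Measure.smul_apply, Measure.add_apply, Measure.coe_finsetSum, Finset.sum_apply,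
    measure_univ, Finset.sum_const, nsmul_eq_mul, mul_one, smul_eq_mul]
  rw [← Nat.cast_add, Nat.add_sub_cancel' hd]
  exact ENNReal.inv_mul_cancel (by simpa using h0.ne') (by simp)

lemma integral_emp {s : ℕ → Finset ι} {d : ℕ → ℕ} {N : ℕ} (hd : (s N).card ≤ d N) (h0 : 0 < d N)
    (y : ι → UnitAddCircle) (f : C(UnitAddCircle, ℂ)) :
    ∫ x, f x ∂(emp (s N) (d N) y) = disc s d y f N + ∫ x, f x := by
  have hi : ∀ k, Integrable (fun x => f x) (Measure.dirac (y k)) := fun k =>
    f.continuous.integrable_of_hasCompactSupport (HasCompactSupport.of_compactSpace _)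
  have hN : ((d N : ℕ) : ℂ) ≠ 0 := by exact_mod_cast h0.ne'
  rw [emp, integral_smul_measure, integral_add_measure
    (integrable_finsetSum_measure.2 fun k _ => hi k) ((cint f).smul_measure (by simp)),
    integral_finsetSum_measure fun k _ => hi k, integral_smul_measure]
  simp only [integral_dirac, Finset.sum_sub_distrib, Finset.sum_const, nsmul_eq_mul,
    disc, ENNReal.toReal_inv, ENNReal.toReal_natCast, Complex.real_smul, Nat.cast_sub hd]
  push_cast
  field_simp
  ring

lemma mem_image_iff {a b t : ℝ} (ha : 0 ≤ a) (hb : b ≤ 1) :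
    (t : UnitAddCircle) ∈ ((↑) : ℝ → UnitAddCircle) '' Ico a b ↔
      a ≤ Int.fract t ∧ Int.fract t < b := by
  constructor
  · rintro ⟨s, hs, hst⟩
    have h1 : ((s - t : ℝ) : UnitAddCircle) = 0 := by
      rw [AddCircle.coe_sub]; exact sub_eq_zero.2 hst
    obtain ⟨n, hn⟩ := (AddCircle.coe_eq_zero_iff (1 : ℝ)).1 h1
    have : Int.fract t = s := by
      rw [Int.fract_eq_iff]
      refine ⟨by linarith [hs.1], by linarith [hs.2], -n, ?_⟩
      simp at hn ⊢; linarith
    rw [this]; exact hs
  · intro h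
    refine ⟨Int.fract t, h, ?_⟩
    exact AddCircle.coe_fract t

lemma volume_image {a b : ℝ} (ha : 0 ≤ a) (hb : b ≤ 1) :
    MeasurableSet (((↑) : ℝ → UnitAddCircle) '' Ico a b) ∧
    volume (((↑) : ℝ → UnitAddCircle) '' Ico a b) = ENNReal.ofReal (b - a) ∧
    volume (frontier (((↑) : ℝ → UnitAddCircle) '' Ico a b)) = 0 := by
  have hc : Continuous ((↑) : ℝ → UnitAddCircle) := AddCircle.continuous_mk' 1
  have ho : IsOpenMap ((↑) : ℝ → UnitAddCircle) := QuotientAddGroup.isOpenMap_coe
  have hm : MeasurableSet (((↑) : ℝ → UnitAddCircle) '' Ico a b) := by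
    rcases le_or_gt b a with h | h
    · simp [Ico_eq_empty_of_le h]
    · rw [← Ioo_insert_left h, image_insert_eq]
      exact ((ho _ isOpen_Ioo).measurableSet).insert _
  refine ⟨hm, ?_, ?_⟩
  · rw [← (UnitAddCircle.measurePreserving_mk 0).measure_preimage hm.nullMeasurableSet,
      Measure.restrict_apply' measurableSet_Ioc, ← Real.volume_Ico]
    apply measure_congr
    have h01 : ({0, 1} : Set ℝ) =ᵐ[volume] (∅ : Set ℝ) := by
      rw [ae_eq_empty]; exact (toFinite _).measure_zero _
    have h2 : ∀ᵐ t : ℝ, t ∉ ({0, 1} : Set ℝ) := by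
      have := (toFinite ({0, 1} : Set ℝ)).measure_zero (volume : Measure ℝ)
      exact measure_eq_zero_iff_ae_notMem.1 this
    filter_upwards [h2] with t ht
    simp only [mem_insert_iff, mem_singleton_iff, not_or] at ht
    apply propext
    change t ∈ _ ∩ Ioc (0 : ℝ) (0 + 1) ↔ t ∈ Ico a b
    rw [mem_inter_iff, mem_preimage, mem_image_iff ha hb]
    constructor
    · rintro ⟨h, h0, h1⟩
      have : Int.fract t = t := Int.fract_eq_self.2 ⟨h0.le, lt_of_le_of_ne (by linarith) ht.2⟩
      rw [this] at h; exact h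
    · intro h
      have h0 : 0 < t := lt_of_le_of_ne (ha.trans h.1) (Ne.symm ht.1)
      have : Int.fract t = t := Int.fract_eq_self.2 ⟨h0.le, h.2.trans_le hb⟩
      rw [this]; exact ⟨h, h0, by linarith [h.2]⟩
  · have hsub : frontier (((↑) : ℝ → UnitAddCircle) '' Ico a b) ⊆ {(a : UnitAddCircle), (b : UnitAddCircle)} := by
      intro x hx
      have h1 : x ∈ ((↑) : ℝ → UnitAddCircle) '' Icc a b :=
        closure_minimal (image_mono Ico_subset_Icc_self) (isCompact_Icc.image hc).isClosed hx.1
      obtain ⟨s, hs, rfl⟩ := h1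
      by_contra hne
      simp only [mem_insert_iff, mem_singleton_iff, not_or] at hne
      have h2 : s ∈ Ioo a b :=
        ⟨lt_of_le_of_ne hs.1 fun h => hne.1 (by rw [h]), lt_of_le_of_ne hs.2 fun h => hne.2 (by rw [h])⟩
      exact hx.2 (interior_maximal (image_mono Ioo_subset_Ico_self) (ho _ isOpen_Ioo) ⟨s, h2, rfl⟩)
    have h0 : ∀ x : UnitAddCircle, volume ({x} : Set UnitAddCircle) = 0 := by
      intro x
      have := AddCircle.volume_closedBall (T := 1) (x := x) 0
      simpa using this
    refine measure_mono_null hsub ?_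
    rw [insert_eq]
    exact measure_union_null (h0 _) (h0 _)

/-- Weyl's criterion along finite families `s N` of indices, normalised by `d N`. -/
theorem weyl {s : ℕ → Finset ι} {d : ℕ → ℕ} (hd : ∀ N, (s N).card ≤ d N)
    (h0 : ∀ N, 0 < d (N + 1)) (y : ι → ℝ)
    (H : ∀ h : ℤ, h ≠ 0 → Tendsto (fun N : ℕ =>
      (∑ k ∈ s N, fourier h (y k : UnitAddCircle)) / (d N : ℂ)) atTop (𝓝 0))
    {a b : ℝ} (ha : 0 ≤ a) (hab : a ≤ b) (hb : b ≤ 1) :
    Tendsto (fun N : ℕ =>
      ((((s N).filter fun k => a ≤ Int.fract (y k) ∧ Int.fract (y k) < b).card : ℝ)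
        - (b - a) * (s N).card) / d N) atTop (𝓝 0) := by
  classical
  set z : ι → UnitAddCircle := fun k => (y k : UnitAddCircle) with hz
  let μs : ℕ → ProbabilityMeasure UnitAddCircle := fun N =>
    ⟨emp (s (N + 1)) (d (N + 1)) z, emp_prob (hd _) (h0 N) z⟩
  let μ : ProbabilityMeasure UnitAddCircle := ⟨volume, inferInstance⟩
  have hlim : Tendsto μs atTop (𝓝 μ) := by
    rw [ProbabilityMeasure.tendsto_iff_forall_integral_rclike_tendsto ℂ]
    intro f
    have h1 := (disc_tendsto hd z H f.toContinuousMap).comp (tendsto_add_atTop_nat 1)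
    have h2 := h1.add_const (∫ x, f.toContinuousMap x)
    rw [zero_add] at h2
    refine h2.congr fun N => ?_
    exact (integral_emp (hd _) (h0 N) z f.toContinuousMap).symm
  obtain ⟨hm, hv, hf⟩ := volume_image ha hb
  set E := ((↑) : ℝ → UnitAddCircle) '' Ico a b with hE
  have h3 := ProbabilityMeasure.tendsto_measure_of_null_frontier_of_tendsto' hlim (E := E) hf
  have h4 : Tendsto (fun N => ((emp (s (N + 1)) (d (N + 1)) z) E).toReal) atTop (𝓝 (b - a)) := by
    have := (ENNReal.tendsto_toReal (measure_ne_top (μ : Measure UnitAddCircle) E)).comp h3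
    have e : ((μ : Measure UnitAddCircle) E).toReal = b - a := by
      change (volume E).toReal = _
      rw [hv, ENNReal.toReal_ofReal (by linarith)]
    rw [e] at this
    exact this
  rw [← tendsto_add_atTop_iff_nat 1]
  have h5 := h4.sub_const (b - a)
  rw [sub_self] at h5
  refine h5.congr fun N => ?_
  have hk : ∀ k, ((Measure.dirac (z k)) E).toReal
      = if a ≤ Int.fract (y k) ∧ Int.fract (y k) < b then 1 else 0 := by
    intro k
    simp only [Measure.dirac_apply' _ hm, ← mem_image_iff ha hb]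
    by_cases hin : z k ∈ E
    · have : (y k : UnitAddCircle) ∈ ((↑) : ℝ → UnitAddCircle) '' Ico a b := hin
      simp [hin, this]
    · have : (y k : UnitAddCircle) ∉ ((↑) : ℝ → UnitAddCircle) '' Ico a b := hin
      simp only [hin, this, not_false_eq_true, indicator_of_notMem, if_false]
      simp
  have hfin : ∀ k, (Measure.dirac (z k)) E ≠ ⊤ := fun k => measure_ne_top _ _
  have hN : ((d (N + 1) : ℕ) : ℝ) ≠ 0 := by exact_mod_cast (h0 N).ne'
  simp only [emp, Measure.smul_apply, Measure.add_apply, Measure.coe_finsetSum, Finset.sum_apply,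
    smul_eq_mul, ENNReal.toReal_mul, ENNReal.toReal_inv, ENNReal.toReal_natCast]
  rw [ENNReal.toReal_add (ENNReal.sum_ne_top.2 fun k _ => hfin k)
    (ENNReal.mul_ne_top (by simp) (measure_ne_top _ _)), ENNReal.toReal_sum fun k _ => hfin k]
  simp only [hk, ENNReal.toReal_mul, ENNReal.toReal_natCast, hv,
    ENNReal.toReal_ofReal (sub_nonneg.2 hab), Finset.card_filter, Nat.cast_sub (hd _)]
  push_cast
  field_simp
  ring

end Pool.Agent.Lib.Weyl
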